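import Pool.Agent.Mg.F53d700.G85e9aa
import Pool.Agent.Mg.F53d700.G8aa6d5
import Pool.Agent.Mg.F53d700.Gbdc705

/-!
The restriction map on 1-cycles of a regular model of a separably rationally connected variety
over a henselian discrete valuation ring is bijective. The first three parts say that the norm,
the tame symbol and the length weights have the properties by which they are chosen.
-/

namespace Pool.Agent.Results.MP_682409_ag.ResBij

open CategoryTheory AlgebraicGeometry Pool.Agent.MP_682409_ag

theorem result :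
    Q.IsNorm Q.Nm ∧
    (∀ (L : Type) [Field L] (V : ValuationSubring L), IsDiscreteValuationRing V →
      Q.IsRes V (Q.res V)) ∧
    (∀ (X : Scheme.{0}) (z w : X) (h : z ⤳ w), IsNoetherianRing (X.presheaf.stalk w) →
      ringKrullDim (Q.ev h).range = 1 → Q.IsWt (Q.Gr z w) (Q.wt (Q.Gr z w))) ∧
    ∀ (b : Bool) (A : CommRingCat.{0}) [IsDomain A] [IsDiscreteValuationRing A]
      [HenselianLocalRing A] (X : Scheme.{0}) (p : X ⟶ Spec A) (d : ℕ),
      (∀ x : X, IsRegularLocalRing (X.presheaf.stalk x)) → Flat p → Q.IsProj p →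
      IsIntegral (Q.XK p) → Q.GenSm (Q.gen p) d → Q.SRC (Q.gen p) →
      (∀ x : X, Q.Gersten b d x) →
      Set.BijOn (Q.resAll (Q.KB b d) p d) Set.univ (Q.Lim (Q.KB b d) p d) :=
  ⟨Lit.cert_nm, Lit.cert_res, Lit.cert_wt, fun b A _ _ _ X p d hreg hfl hpr hint hsm hsrc hG =>
    Lit.final (fun b => mainB_of (facts_stmt df_stmt) br1_stmt br5_stmt b Nm main_all)
      b A X p d hreg hfl hpr hint hsm hsrc hG⟩

end Pool.Agent.Results.MP_682409_ag.ResBij
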