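import Pool.Agent.Mg.F682409.Gf29adc
import Pool.Agent.Mg.F682409.Gf20796
import Pool.Agent.Mg.F682409.Ge43a1b
import Pool.Agent.Mg.F682409.Geaf5be
import Pool.Agent.Mg.F682409.G0fbb45

/-!
If `N` times every rational point of the generic fibre is, over every field, rationally equivalent
to a cycle lying over closed points, and `N` has valuation at most `v` in `A`, then the restriction
to `X_(n+1)` is bijective for all `n ≥ 2 v + 2 d`.
-/

namespace Pool.Agent.Results.MP_682409_ag.TorsionLevel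

open CategoryTheory AlgebraicGeometry IsLocalRing Pool.Agent.MP_682409_ag

theorem result (b : Bool) (A : CommRingCat.{0}) [IsDomain A] [IsDiscreteValuationRing A]
    [HenselianLocalRing A] (X : Scheme.{0}) (p : X ⟶ Spec A) (d N v : ℕ)
    (hreg : ∀ x : X, IsRegularLocalRing (X.presheaf.stalk x)) (hfl : Flat p) (hpr : Q.IsProj p)
    (hint : IsIntegral (Q.XK p)) (hd : Tor.HasDim (Q.gen p) d) (hT : Tor.Tors N (Q.gen p))
    (hN : (N : A) ∉ maximalIdeal A ^ (v + 1)) (hG : ∀ x : X, Q.Gersten b d x)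
    (n : ℕ) (hn : 2 * v + 2 * d ≤ n) :
    Function.Bijective (Q.Hres (Q.KB b d) (Q.inc p (Q.mp A n)) d) := by
  obtain ⟨π, hπ⟩ := IsDiscreteValuationRing.exists_irreducible A
  obtain ⟨w, u, hw, hu, e⟩ := Tor.exists_val hπ hN
  have hW := Tor.sWH (Tor.sMH hen1_stmt df_stmt)
  have hB := Tor.sBB (Tor.sDiv (Tor.sDec (Tor.sFact hW) Tor.sNm) (Tor.sCore hW Tor.sNm))
  have hR := Tor.sBr Tor.sFt Tor.sFn (Tor.sCen Tor.sFn) Tor.sPt (Tor.sCv Tor.sFt Tor.sFn)
  exact Tor.sFin' b A π hπ X p d (2 * w + 1) hreg hfl hpr hint (fun D F h => Tor.dim_of hd D F h)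
    hG (by omega) (fun D F => hB A π hπ D.fr F N w u hu e
      (Tor.sSum Tor.sTG A π hπ D.fr F N (hR A X p D N hpr hT))) n (by omega)

end Pool.Agent.Results.MP_682409_ag.TorsionLevel
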